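import Pool.Agent.PST.StmtsK2

/-! Squad PST, block K, row BKZ: the Brauer kernel of `zpowers r`. -/

open scoped BigOperators TensorProduct

noncomputable section

namespace Pool.Agent.PST.H41

open Pool.Agent.PSS
open Pool.Agent.PFC (IsTv)
open Finset

/-- the sum over a transversal does not depend on the transversal -/
lemma bkz_tv {V M : Type} [Group V] [AddCommMonoid M] {P' P : Subgroup V} {S S' : Finset V}
    (h : IsTv P' P S) (h' : IsTv P' P S') (f : V → M) (hf : ∀ x, ∀ p ∈ P', f (x * p) = f x) :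
    ∑ x ∈ S, f x = ∑ x ∈ S', f x := by
  classical
  have key : ∀ (T T' : Finset V), IsTv P' P T → IsTv P' P T' →
      ∃ φ : V → V, (∀ s ∈ T, φ s ∈ T') ∧ ∀ s ∈ T, (φ s)⁻¹ * s ∈ P' := by
    intro T T' hT hT'
    refine ⟨fun s => if hs : s ∈ T then (hT'.2 s (hT.1 s hs)).choose else 1, ?_, ?_⟩
    · intro s hs
      simp only
      rw [dif_pos hs]
      exact (hT'.2 s (hT.1 s hs)).choose_spec.1.1
    · intro s hs
      simp only
      rw [dif_pos hs]
      exact (hT'.2 s (hT.1 s hs)).choose_spec.1.2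
  obtain ⟨φ, hφ1, hφ2⟩ := key S S' h h'
  obtain ⟨ψ, hψ1, hψ2⟩ := key S' S h' h
  have hu : ∀ (T : Finset V), IsTv P' P T → ∀ s ∈ T, ∀ s' ∈ T, s'⁻¹ * s ∈ P' → s' = s := by
    intro T hT s hs s' hs' hss
    refine (hT.2 s (hT.1 s hs)).unique ⟨hs', hss⟩ ⟨hs, ?_⟩
    rw [inv_mul_cancel]
    exact P'.one_mem
  refine Finset.sum_bij' (fun s _ => φ s) (fun s _ => ψ s) hφ1 hψ1 ?_ ?_ ?_
  · intro s hs
    refine hu S h s hs _ (hψ1 _ (hφ1 s hs)) ?_
    have := P'.mul_mem (hψ2 _ (hφ1 s hs)) (hφ2 s hs)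
    rwa [mul_assoc, mul_inv_cancel_left] at this
  · intro s hs
    refine hu S' h' s hs _ (hφ1 _ (hψ1 s hs)) ?_
    have := P'.mul_mem (hφ2 _ (hψ1 s hs)) (hψ2 s hs)
    rwa [mul_assoc, mul_inv_cancel_left] at this
  · intro s hs
    have := hf (φ s) _ (hφ2 s hs)
    rw [mul_inv_cancel_left] at this
    exact this

/-- powers prime to `ℓ` generate -/
lemma bkz_gen {V : Type} [CommGroup V] {ℓ : ℕ} (hℓ : ℓ.Prime) {r : V} {n : ℕ}
    (hn : r ^ (ℓ ^ n) = 1) (k : ℤ) (hk : ¬ (ℓ : ℤ) ∣ k) : r ∈ Subgroup.zpowers (r ^ k) := by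
  have h1 : IsCoprime k ((ℓ : ℤ) ^ n) := by
    refine IsCoprime.pow_right ?_
    rw [isCoprime_comm]
    exact (Prime.coprime_iff_not_dvd (Nat.prime_iff_prime_int.1 hℓ)).2 hk
  obtain ⟨a, b, hab⟩ := h1
  rw [Subgroup.mem_zpowers_iff]
  refine ⟨a, ?_⟩
  have h2 : r ^ (a * k + b * (ℓ : ℤ) ^ n) = r := by rw [hab, zpow_one]
  rw [zpow_add, mul_comm b, zpow_mul r ((ℓ : ℤ) ^ n) b] at h2
  have h3 : r ^ ((ℓ : ℤ) ^ n) = 1 := by
    rw [← Nat.cast_pow, zpow_natCast, hn]
  rw [h3, one_zpow, mul_one] at h2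
  rw [← zpow_mul, mul_comm k a, h2]

theorem bkz : BkzStmt := by
  classical
  intro ℓ hℓ F V A _ _ _ _ _ α r hp a ha
  obtain ⟨n, hn⟩ := hp r
  have hcw : ∀ (v : V) (m : A), cw F α v m = α v * m * α v⁻¹ := by
    intro v m
    show bw F α (v, v) m = _
    simp only [bw, MonoidHom.coe_mk, OneHom.coe_mk, LinearMap.comp_apply,
      LinearMap.mulRight_apply, LinearMap.mulLeft_apply, mul_assoc]
  set P := Subgroup.zpowers r with hP
  set P₀ := Subgroup.zpowers (r ^ ℓ) with hP₀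
  have hP0 : ∀ k : ℤ, r ^ ((ℓ : ℤ) * k) ∈ P₀ := by
    intro k
    rw [zpow_mul, zpow_natCast]
    exact Subgroup.zpow_mem _ (Subgroup.mem_zpowers _) k
  have hP0P : P₀ ≤ P := by
    rw [hP₀, Subgroup.zpowers_le]
    exact Subgroup.pow_mem _ (Subgroup.mem_zpowers _) ℓ
  unfold BKR at ha
  induction ha using Submodule.span_induction with
  | mem a ha =>
    obtain ⟨P', S, m', hlt, hS, hm', rfl⟩ := ha
    -- `r` is not in `P'`
    have hrP' : r ∉ P' := by
      intro h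
      exact absurd (by rw [hP, Subgroup.zpowers_le]; exact h : P ≤ P') (not_le_of_gt hlt)
    have hP'0 : P' ≤ P₀ := by
      intro x hx
      obtain ⟨k, hk⟩ := Subgroup.mem_zpowers_iff.1 (hlt.le hx)
      by_cases hd : (ℓ : ℤ) ∣ k
      · obtain ⟨k', rfl⟩ := hd
        rw [← hk]
        exact hP0 k'
      · refine absurd ?_ hrP'
        have h1 := bkz_gen hℓ.out hn k hd
        rw [hk] at h1
        exact (by rw [Subgroup.zpowers_le]; exact hx : Subgroup.zpowers x ≤ P') h1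
    -- `r` is not in `P₀`
    have hr0 : r ∉ P₀ := by
      intro h
      obtain ⟨k, hk⟩ := Subgroup.mem_zpowers_iff.1 h
      have h1 : r ^ ((1 : ℤ) - ℓ * k) = 1 := by
        rw [zpow_sub, zpow_one, zpow_mul, zpow_natCast, hk, mul_inv_cancel]
      have h2 := bkz_gen hℓ.out hn ((1 : ℤ) - ℓ * k) (by
        intro hd
        have h3 : (ℓ : ℤ) ∣ 1 := by
          have := dvd_add hd (dvd_mul_right (ℓ : ℤ) k)
          rwa [sub_add_cancel] at this
        have h4 := Int.natAbs_dvd_natAbs.2 h3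
        simp only [Int.natAbs_natCast, Int.natAbs_one] at h4
        exact hℓ.out.one_lt.ne' (Nat.dvd_one.1 h4))
      rw [h1, Subgroup.zpowers_one_eq_bot, Subgroup.mem_bot] at h2
      exact hrP' (by rw [h2]; exact P'.one_mem)
    have hkey : ∀ t < ℓ, ∀ t' < ℓ, r ^ ((t : ℤ) - t') ∈ P₀ → t = t' := by
      intro t ht t' ht' h
      by_contra hne
      refine hr0 ?_
      have h1 := bkz_gen hℓ.out hn ((t : ℤ) - t') (by
        intro hd
        have h2 := Int.eq_zero_of_abs_lt_dvd hd (by rw [abs_lt]; constructor <;> omega)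
        omega)
      exact (by rw [Subgroup.zpowers_le]; exact h : Subgroup.zpowers (r ^ ((t : ℤ) - t')) ≤ P₀) h1
    -- a transversal of `P'` in `P₀`
    let S₀ : Finset V := S.filter (· ∈ P₀)
    have hS0m : ∀ x, x ∈ S₀ ↔ x ∈ S ∧ x ∈ P₀ := fun x => Finset.mem_filter
    have hS0 : IsTv P' P₀ S₀ := by
      refine ⟨fun s hs => ((hS0m s).1 hs).2, fun p hp => ?_⟩
      obtain ⟨s, ⟨hs1, hs2⟩, hs3⟩ := hS.2 p (hP0P hp)
      refine ⟨s, ⟨(hS0m s).2 ⟨hs1, ?_⟩, hs2⟩, fun s' hs' => hs3 s' ⟨((hS0m s').1 hs'.1).1, hs'.2⟩⟩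
      have h1 := P₀.mul_mem hp (P₀.inv_mem (hP'0 hs2))
      rwa [mul_inv_rev, inv_inv, mul_inv_cancel_left] at h1
    let f : V → A := fun x => cw F α x m'
    have hf : ∀ x, ∀ p ∈ P', f (x * p) = f x := by
      intro x p hp
      show cw F α (x * p) m' = cw F α x m'
      rw [map_mul, Module.End.mul_apply, hm' p hp]
    let m : A := ∑ x ∈ S₀, f x
    -- `m` commutes with `r ^ ℓ`
    have hm : cw F α (r ^ ℓ) m = m := by
      show cw F α (r ^ ℓ) (∑ x ∈ S₀, f x) = ∑ x ∈ S₀, f x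
      have hT : IsTv P' P₀ (S₀.image (r ^ ℓ * ·)) := by
        refine ⟨fun s hs => ?_, fun p hp => ?_⟩
        · obtain ⟨x, hx, rfl⟩ := Finset.mem_image.1 hs
          exact P₀.mul_mem (Subgroup.mem_zpowers _) (hS0.1 x hx)
        · obtain ⟨s, ⟨hs1, hs2⟩, hs3⟩ := hS0.2 ((r ^ ℓ)⁻¹ * p)
            (P₀.mul_mem (P₀.inv_mem (Subgroup.mem_zpowers _)) hp)
          refine ⟨r ^ ℓ * s, ⟨Finset.mem_image_of_mem _ hs1, ?_⟩, ?_⟩
          · rw [mul_inv_rev, mul_assoc]
            exact hs2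
          · rintro s' ⟨hs', hs''⟩
            obtain ⟨x, hx, rfl⟩ := Finset.mem_image.1 hs'
            rw [mul_inv_rev, mul_assoc] at hs''
            rw [hs3 x ⟨hx, hs''⟩]
      conv_rhs => rw [bkz_tv hS0 hT f hf,
        Finset.sum_image (fun x _ y _ h => mul_left_cancel h)]
      rw [map_sum]
      refine Finset.sum_congr rfl fun x _ => ?_
      show cw F α (r ^ ℓ) (cw F α x m') = cw F α (r ^ ℓ * x) m'
      rw [map_mul, Module.End.mul_apply]
    -- the big transversal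
    have hinj : Set.InjOn (fun p : ℕ × V => r ^ p.1 * p.2) (range ℓ ×ˢ S₀ : Finset (ℕ × V)) := by
      rintro ⟨t, x⟩ h1 ⟨t', x'⟩ h2 h
      simp only [Finset.coe_product, Set.mem_prod, Finset.mem_coe, Finset.mem_range] at h1 h2
      simp only at h
      have e : t = t' := by
        refine hkey t h1.1 t' h2.1 ?_
        have e1 : r ^ ((t : ℤ) - t') = x' * x⁻¹ := by
          rw [zpow_sub, zpow_natCast, zpow_natCast, eq_mul_inv_iff_mul_eq, mul_right_comm, h,
            mul_right_comm, mul_inv_cancel, one_mul]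
        rw [e1]
        exact P₀.mul_mem (hS0.1 x' h2.2) (P₀.inv_mem (hS0.1 x h1.2))
      subst e
      rw [mul_left_cancel h]
    have hT : IsTv P' P ((range ℓ ×ˢ S₀).image (fun p : ℕ × V => r ^ p.1 * p.2)) := by
      refine ⟨fun s hs => ?_, fun p hp => ?_⟩
      · obtain ⟨⟨t, x⟩, hx, rfl⟩ := Finset.mem_image.1 hs
        exact P.mul_mem (Subgroup.pow_mem _ (Subgroup.mem_zpowers _) t)
          (hP0P (hS0.1 x (Finset.mem_product.1 hx).2))
      · obtain ⟨k, rfl⟩ := Subgroup.mem_zpowers_iff.1 hp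
        have hℓ0 : (0 : ℤ) < ℓ := by exact_mod_cast hℓ.out.pos
        obtain ⟨t, ht⟩ := Int.eq_ofNat_of_zero_le (Int.emod_nonneg k hℓ0.ne')
        have htl : t < ℓ := by
          have := Int.emod_lt_of_pos k hℓ0
          rw [ht] at this
          exact_mod_cast this
        have e1 : (r ^ t)⁻¹ * r ^ k ∈ P₀ := by
          have e2 : (r ^ t)⁻¹ * r ^ k = r ^ ((ℓ : ℤ) * (k / ℓ)) := by
            rw [← zpow_natCast, ← zpow_neg, ← zpow_add]
            congr 1
            have := Int.emod_add_mul_ediv k ℓ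
            rw [ht] at this
            linarith
          rw [e2]
          exact hP0 _
        obtain ⟨x, ⟨hx1, hx2⟩, hx3⟩ := hS0.2 _ e1
        refine ⟨r ^ t * x, ⟨Finset.mem_image.2 ⟨(t, x), Finset.mem_product.2
          ⟨Finset.mem_range.2 htl, hx1⟩, rfl⟩, ?_⟩, ?_⟩
        · rw [mul_inv_rev, mul_assoc]
          exact hx2
        · rintro s' ⟨hs', hs''⟩
          obtain ⟨⟨t', x'⟩, hx', rfl⟩ := Finset.mem_image.1 hs'
          obtain ⟨ht', hx'1⟩ := Finset.mem_product.1 hx'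
          simp only at ht' hx'1 hs'' ⊢
          have e3 : (r ^ t')⁻¹ * r ^ k ∈ P₀ := by
            have e4 : (r ^ t')⁻¹ * r ^ k = x' * ((r ^ t' * x')⁻¹ * r ^ k) := by
              rw [mul_inv_rev, mul_assoc, mul_inv_cancel_left]
            rw [e4]
            exact P₀.mul_mem (hS0.1 x' hx'1) (hP'0 hs'')
          have e : t' = t := by
            refine hkey t' (Finset.mem_range.1 ht') t htl ?_
            have e5 := P₀.mul_mem e1 (P₀.inv_mem e3)
            have e6 : (r ^ t)⁻¹ * r ^ k * ((r ^ t')⁻¹ * r ^ k)⁻¹ = r ^ ((t' : ℤ) - t) := by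
              rw [zpow_sub, zpow_natCast, zpow_natCast, mul_inv_rev, inv_inv, mul_assoc,
                mul_inv_cancel_left, mul_comm]
            rwa [e6] at e5
          subst e
          rw [mul_inv_rev, mul_assoc] at hs''
          rw [hx3 x' ⟨hx'1, hs''⟩]
    refine ⟨m, ?_, ?_⟩
    · rw [hcw] at hm
      have e : α (r ^ ℓ) * m * α (r ^ ℓ)⁻¹ * α (r ^ ℓ) = m * α (r ^ ℓ) := by rw [hm]
      rw [← e, mul_assoc, ← map_mul, inv_mul_cancel, map_one, mul_one]
    · show ∑ x ∈ S, f x = _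
      rw [bkz_tv hS hT f hf, Finset.sum_image hinj, Finset.sum_product]
      refine Finset.sum_congr rfl fun t _ => ?_
      rw [← hcw]
      show _ = cw F α (r ^ t) (∑ x ∈ S₀, f x)
      rw [map_sum]
      refine Finset.sum_congr rfl fun x _ => ?_
      show cw F α (r ^ t * x) m' = cw F α (r ^ t) (cw F α x m')
      rw [map_mul, Module.End.mul_apply]
  | zero => exact ⟨0, by rw [zero_mul, mul_zero], by simp⟩
  | add x y _ _ hx hy =>
    obtain ⟨m₁, h1, h2⟩ := hx
    obtain ⟨m₂, h3, h4⟩ := hy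
    refine ⟨m₁ + m₂, by rw [add_mul, mul_add, h1, h3], ?_⟩
    rw [h2, h4, ← Finset.sum_add_distrib]
    refine Finset.sum_congr rfl fun t _ => ?_
    rw [mul_add, add_mul]
  | smul c x _ hx =>
    obtain ⟨m₁, h1, h2⟩ := hx
    refine ⟨c • m₁, by rw [smul_mul_assoc, mul_smul_comm, h1], ?_⟩
    rw [h2, Finset.smul_sum]
    refine Finset.sum_congr rfl fun t _ => ?_
    rw [mul_smul_comm, smul_mul_assoc]

end Pool.Agent.PST.H41
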