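import Pool.Agent.PST.StmtsGU

/-! Squad PST, block GU, row STR: the input of the group level for the class `K3 L`. -/

open scoped BigOperators

noncomputable section

namespace Pool.Agent.PST.GU.H41

open Pool.Agent.PSS

/-- the statement of `PSS.AllS6.stogen_` -/
def StogenStmt : Prop := ∀ (P : PrV) (K : Kl),
  (∀ (ℓ : ℕ) (V : Type) [CommGroup V] [Finite V] (E : Subgroup (MulAut V)) (W : Subgroup V),
    IsPGroup ℓ V → ¬ ℓ ∣ Nat.card E → K ℓ V E W → P V E E.subtype W) →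
  BsgStmt P → StoFor K

theorem str (k3r : K3rStmt) (stogen : StogenStmt) : StrStmt := by
  intro hatg L
  have h : StoFor (fun ℓ V _ E W => ℓ.Prime ∧ K3 L ℓ V E W) := by
    refine stogen Rt3 _ ?_ ?_
    · intro ℓ V _ _ E W hp hE hK
      exact k3r L ℓ V E W hK.1 hp hE hK.2
    · intro ℓ _ F V E A B _ _ _ _ _ _ _ _ _ _ _ φ α W hp hE hR hA hB
      obtain ⟨n, T, ψ, hWT, hst, hc, hr, hR⟩ := hR
      exact hatg n ℓ F V E A B φ α T W ψ hp hE hWT hst hc hr hR hA hB
  intro ℓ hℓ M _ hM G _ _ e V γ hL W hW hK c hc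
  exact h ℓ M hM G e V γ hL W hW ⟨hℓ.out, hK⟩ c hc

end Pool.Agent.PST.GU.H41
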