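import Pool.Agent.PST.StmtsGU

/-! Squad PST, block GU, row YUM: the image of a factor. -/

open scoped BigOperators

noncomputable section

namespace Pool.Agent.PST.GU.H41

open Pool.Agent.PSS

theorem yum : YumStmt := by
  intro ℓ V V' _ _ E E' π hQ U Y hU hY hYk hUk
  have hinj : ∀ S : Subgroup V, S ⊓ π.ker = ⊥ → ∀ a ∈ S, ∀ b ∈ S, π a = π b → a = b := by
    intro S hS a ha b hb h
    have h1 : a * b⁻¹ ∈ S ⊓ π.ker :=
      ⟨S.mul_mem ha (S.inv_mem hb), by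
        show a * b⁻¹ ∈ π.ker
        rw [MonoidHom.mem_ker, map_mul, map_inv, h, mul_inv_cancel]⟩
    rw [hS, Subgroup.mem_bot] at h1
    exact mul_inv_eq_one.1 h1
  refine ⟨?_, ?_, ?_⟩
  · have h1 : Nat.card (π '' (Y : Set V)) = Nat.card (Y : Set V) :=
      Nat.card_image_of_injOn fun a ha b hb h => hinj Y hYk a ha b hb h
    exact h1.trans hY.cd
  · rintro a' ha' _ ⟨y, hy, rfl⟩
    obtain ⟨a, ha, h⟩ := hQ.lif a' ha'
    exact ⟨a y, hY.st a ha y hy, h y⟩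
  · rintro a' ha' h1 _ ⟨u, hu, rfl⟩ h2 h3 _ ⟨x, hx, rfl⟩
    obtain ⟨a, ha, h⟩ := hQ.lif a' ha'
    have h4 : ∀ y ∈ Y, a y = y := fun y hy =>
      hinj Y hYk _ (hY.st a ha y hy) _ hy (by rw [h, h1 _ ⟨y, hy, rfl⟩])
    have h5 : u ≠ 1 := by
      rintro rfl
      exact h2 (map_one π)
    have h6 : a u = u := hinj U hUk _ (hU a ha u hu) _ hu (by rw [h, h3])
    rw [← h, hY.fr a ha h4 u hu h5 h6 x hx]

end Pool.Agent.PST.GU.H41
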