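import Pool.Agent.PST.StmtsET3

/-! Squad PST, block ET, row CRE: a corner of the deformation. -/

open scoped BigOperators TensorProduct

noncomputable section

namespace Pool.Agent.PST.ET.H41

open Pool.Agent.PFD.D2 (Cdv FibG)

section

variable (R : Type) {D : Type} [CommRing R] [Ring D] [Algebra R D]

/-- the corner `j D j` -/
def crn (j : D) : Submodule R D where
  carrier := {a | j * a = a ∧ a * j = a}
  add_mem' := by
    rintro a b ⟨h1, h2⟩ ⟨h3, h4⟩
    exact ⟨by rw [mul_add, h1, h3], by rw [add_mul, h2, h4]⟩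
  zero_mem' := ⟨mul_zero _, zero_mul _⟩
  smul_mem' := by
    rintro r a ⟨h1, h2⟩
    exact ⟨by rw [mul_smul_comm, h1], by rw [smul_mul_assoc, h2]⟩

variable {R}

/-- the ring structure of the corner -/
@[reducible] def crnRing (j : D) (hj : j * j = j) : Ring (crn R j) :=
  { (inferInstance : AddCommGroup (crn R j)) with
    mul := fun a b => ⟨(a : D) * b, by rw [← mul_assoc, a.2.1], by rw [mul_assoc, b.2.2]⟩
    one := ⟨j, hj, hj⟩
    left_distrib := fun a b c => Subtype.ext (mul_add (a : D) b c)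
    right_distrib := fun a b c => Subtype.ext (add_mul (a : D) b c)
    zero_mul := fun a => Subtype.ext (zero_mul (a : D))
    mul_zero := fun a => Subtype.ext (mul_zero (a : D))
    mul_assoc := fun a b c => Subtype.ext (mul_assoc (a : D) b c)
    one_mul := fun a => Subtype.ext a.2.1
    mul_one := fun a => Subtype.ext a.2.2 }

end

theorem cre : CreStmt := by
  intro R F D H Y _ _ _ _ c _ _ _ _ _ _ f _ _ j κ hj hκ
  let ir : Ring (crn R j) := crnRing j hj
  let ia : Algebra R (crn R j) := Algebra.ofModule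
    (fun r a b => Subtype.ext (smul_mul_assoc r (a : D) (b : D)))
    (fun r a b => Subtype.ext (mul_smul_comm r (a : D) (b : D)))
  have hκπ : c.κ c.π = 0 := (c.ker _).2 ⟨1, (mul_one _).symm⟩
  have hqs : ∀ (r : R) (a : D), f.q (r • a) = c.κ r • f.q a := by
    intro r a
    rw [Algebra.smul_def, map_mul, f.sc, ← Algebra.smul_def]
  have hex : ∀ a : crn R j, ∃ y, κ y = f.q a := fun a =>
    hκ.ran _ (by rw [← map_mul, a.2.1]) (by rw [← map_mul, a.2.2])
  let g : crn R j → Y := fun a => (hex a).choose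
  have hg : ∀ a, κ (g a) = f.q a := fun a => (hex a).choose_spec
  let q : crn R j →+* Y :=
    { toFun := g
      map_one' := hκ.inj (by rw [hg, hκ.one]; rfl)
      map_mul' := fun a b => hκ.inj (by
        rw [hg, hκ.mul, hg, hg, ← map_mul]
        rfl)
      map_zero' := hκ.inj (by rw [hg, map_zero]; exact map_zero f.q)
      map_add' := fun a b => hκ.inj (by
        rw [hg, map_add, hg, hg, ← map_add]
        rfl) }
  have hq : ∀ a : crn R j, κ (q a) = f.q a := hg
  have hfin : Module.Finite R (crn R j) := by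
    have : IsNoetherian R D := isNoetherian_of_isNoetherianRing_of_finite R D
    exact Module.IsNoetherian.finite R (crn R j)
  have hfree : Module.Free R (crn R j) := by
    exact Module.free_of_finite_type_torsion_free'
  refine ⟨crn R j, ir, ia, hfin, hfree, (crn R j).subtype, ⟨q, ?_, ?_, ?_⟩, ?_, ?_⟩
  · intro r
    refine hκ.inj ?_
    rw [hq]
    have h1 : ((algebraMap R (crn R j) r : crn R j) : D) = r • j := by
      rw [Algebra.algebraMap_eq_smul_one]
      rfl
    rw [h1, hqs, Algebra.algebraMap_eq_smul_one, map_smul, hκ.one]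
  · intro y
    obtain ⟨a, ha⟩ := f.surj (κ y)
    refine ⟨⟨j * a * j, ?_, ?_⟩, hκ.inj ?_⟩
    · rw [← mul_assoc, ← mul_assoc, hj]
    · rw [mul_assoc, hj]
    · rw [hq]
      show f.q (j * a * j) = κ y
      rw [map_mul, map_mul, ha, ← hκ.one, ← hκ.mul, ← hκ.mul, one_mul, mul_one]
  · intro x hx
    obtain ⟨b, hb⟩ := f.ker (x : D) (by rw [← hq, hx, map_zero])
    refine ⟨⟨j * b * j, ?_, ?_⟩, Subtype.ext ?_⟩
    · rw [← mul_assoc, ← mul_assoc, hj]
    · rw [mul_assoc, hj]
    · show (x : D) = c.π • (j * b * j)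
      have h1 : (x : D) = j * x * j := by rw [x.2.1, x.2.2]
      rw [h1, hb, mul_smul_comm, smul_mul_assoc]
  · exact ⟨Subtype.val_injective, fun _ _ => rfl, rfl, fun a h1 h2 => ⟨⟨a, h1, h2⟩, rfl⟩⟩
  · exact hq

end Pool.Agent.PST.ET.H41
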