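import Pool.Agent.PST.StmtsET2

/-! Squad PST, block ET, rows FCZ, RDF: central elements on a full corner; reduction of a form. -/

open scoped BigOperators TensorProduct

noncomputable section

namespace Pool.Agent.PST.ET.H41

open Pool.Agent.PFD.D2 (Cdv FibG)

theorem fcz : FczStmt := by
  intro R D _ _ _ p b j τ u u' htf hbb hb hjj hspan hτ hτb hjτ hju huj hju' hu'j huu' hu'u
  have key : ∀ x ∈ Submodule.span R {x : D | ∃ s t : D, x = s * j * t},
      ∃ z z' : D, p • z = τ * x ∧ τ * z' = p • x := by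
    intro x hx
    induction hx using Submodule.span_induction with
    | mem x hx =>
      obtain ⟨s, t, rfl⟩ := hx
      refine ⟨s * u * t, s * u' * t, ?_, ?_⟩
      · calc p • (s * u * t) = s * (p • u) * t := by
              rw [mul_smul_comm, smul_mul_assoc]
          _ = s * (j * τ) * t := by rw [hjτ]
          _ = τ * (s * j * t) := by
              rw [← hτ j, ← mul_assoc s, ← hτ s]
              simp only [mul_assoc]
      · calc τ * (s * u' * t) = s * (j * τ) * u' * t := by
              rw [← hτ j]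
              nth_rewrite 1 [← hju']
              rw [← mul_assoc s τ j, ← hτ s]
              simp only [mul_assoc]
          _ = s * (p • u) * u' * t := by rw [hjτ]
          _ = p • (s * (u * u') * t) := by
              rw [mul_smul_comm, smul_mul_assoc, smul_mul_assoc]
              simp only [mul_assoc]
          _ = p • (s * j * t) := by rw [huu']
    | zero => exact ⟨0, 0, by simp, by simp⟩
    | add x y _ _ hx hy =>
      obtain ⟨z₁, z₁', h1, h2⟩ := hx
      obtain ⟨z₂, z₂', h3, h4⟩ := hy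
      exact ⟨z₁ + z₂, z₁' + z₂', by rw [smul_add, h1, h3, mul_add], by
        rw [mul_add, h2, h4, smul_add]⟩
    | smul r x _ hx =>
      obtain ⟨z₁, z₁', h1, h2⟩ := hx
      exact ⟨r • z₁, r • z₁', by rw [smul_comm, h1, mul_smul_comm], by
        rw [mul_smul_comm, h2, smul_comm]⟩
  obtain ⟨z, z₁, h1, h2⟩ := key b hspan
  rw [hτb] at h1
  have heq : ∀ x y : D, p • x = p • y → x = y := fun x y h =>
    sub_eq_zero.1 (htf _ (by rw [smul_sub, h, sub_self]))
  have hz : ∀ a, z * a = a * z := fun a => heq _ _ (by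
    rw [← smul_mul_assoc, ← mul_smul_comm, h1, hτ])
  have hzb : z * b = z := heq _ _ (by rw [← smul_mul_assoc, h1, hτb])
  have hzz : z * z₁ = b := heq _ _ (by rw [← smul_mul_assoc, h1, h2])
  have hzz' : z * (b * z₁) = b := by rw [← mul_assoc, hzb, hzz]
  refine ⟨z, b * z₁, hz, ?_, hzz', hzb, h1.symm⟩
  intro a
  have h3 : z * (b * z₁ * a - a * (b * z₁)) = 0 := by
    rw [mul_sub, ← mul_assoc, hzz', ← mul_assoc z a, hz a, mul_assoc, hzz', hb a, sub_self]
  have h4 : b * (b * z₁ * a - a * (b * z₁)) = b * z₁ * a - a * (b * z₁) := by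
    rw [mul_sub, ← mul_assoc b (b * z₁), ← mul_assoc b b, hbb, ← mul_assoc b a, hb a, mul_assoc a b,
      ← mul_assoc b b, hbb]
  have h5 : b * (b * z₁ * a - a * (b * z₁)) = 0 := by
    have h6 : ∀ c : D, z * c = 0 → b * c = 0 := fun c hc => by
      rw [← hzz', hz, mul_assoc, hc, mul_zero]
    exact h6 _ h3
  rw [h4] at h5
  exact sub_eq_zero.1 h5

theorem rdf : RdfStmt := by
  intro R F D H K _ _ c _ _ _ _ f _ T x y hS
  obtain ⟨hsym, he1, he2⟩ := hS
  have hκπ : c.κ c.π = 0 := (c.ker _).2 ⟨1, (mul_one _).symm⟩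
  have hwd : ∀ a b : D, f.q a = f.q b → c.κ (T a) = c.κ (T b) := by
    intro a b h
    obtain ⟨d, hd⟩ := f.ker (a - b) (by rw [map_sub, h, sub_self])
    have h1 : T a - T b = c.π * T d := by rw [← map_sub, hd, map_smul, smul_eq_mul]
    have h2 : c.κ (T a) - c.κ (T b) = 0 := by rw [← map_sub, h1, map_mul, hκπ, zero_mul]
    exact sub_eq_zero.1 h2
  have hqs : ∀ (r : R) (a : D), f.q (r • a) = c.κ r • f.q a := by
    intro r a
    rw [Algebra.smul_def, map_mul, f.sc, ← Algebra.smul_def]
  let g : H → D := fun h => (f.surj h).choose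
  have hg : ∀ h, f.q (g h) = h := fun h => (f.surj h).choose_spec
  let lam0 : H →ₗ[F] F :=
    { toFun := fun h => c.κ (T (g h))
      map_add' := by
        intro h h'
        rw [hwd (g (h + h')) (g h + g h') (by rw [map_add, hg, hg, hg]), map_add, map_add]
      map_smul' := by
        intro r h
        obtain ⟨ρ, rfl⟩ := c.surj r
        rw [hwd (g (c.κ ρ • h)) (ρ • g h) (by rw [hg, hqs, hg]), map_smul, smul_eq_mul, map_mul]
        rfl }
  have hl : ∀ a, lam0 (f.q a) = c.κ (T a) := fun a => hwd _ _ (hg _)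
  refine ⟨lam0, hl, ?_, ?_, ?_⟩
  · intro h h'
    obtain ⟨a, rfl⟩ := f.surj h
    obtain ⟨b, rfl⟩ := f.surj h'
    rw [← map_mul, ← map_mul, hl, hl, hsym]
  · intro h
    obtain ⟨a, rfl⟩ := f.surj h
    conv_rhs => rw [← he1 a, map_sum]
    refine Finset.sum_congr rfl fun k _ => ?_
    rw [← map_mul, hl, hqs]
  · intro h
    obtain ⟨a, rfl⟩ := f.surj h
    conv_rhs => rw [← he2 a, map_sum]
    refine Finset.sum_congr rfl fun k _ => ?_
    rw [← map_mul, hl, hqs]

end Pool.Agent.PST.ET.H41
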