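import Pool.Agent.PST.StmtsET3

/-! Squad PST, block ET, row TWR: the first order datum of the twist. -/

open scoped BigOperators TensorProduct

noncomputable section

namespace Pool.Agent.PST.ET.H41

open Pool.Agent.PFD.D2 (Cdv FibG)
open Pool.Agent.PFC (Fx BK cj bi IsTv)

/-- the number of elements of a transversal is divisible by `ℓ` -/
lemma twr_card {ℓ : ℕ} (hℓ : ℓ.Prime) {V : Type} [CommGroup V] [Finite V] (hp : IsPGroup ℓ V)
    {P' : Subgroup V} {S : Finset V} (hlt : P' < ⊤) (hS : IsTv P' ⊤ S) : ℓ ∣ S.card := by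
  have h1 : S.card = P'.index := by
    have hb : Function.Bijective (fun s : S => ((s : V) : V ⧸ P')) := by
      constructor
      · intro s s' h
        have h2 : (s : V)⁻¹ * s' ∈ P' := QuotientGroup.eq.1 h
        have h3 := (hS.2 (s' : V) (Subgroup.mem_top _)).unique ⟨s.2, h2⟩
          ⟨s'.2, by rw [inv_mul_cancel]; exact P'.one_mem⟩
        exact Subtype.ext h3
      · intro p
        induction p using QuotientGroup.induction_on with
        | H p =>
          obtain ⟨s, ⟨hs, hs'⟩, -⟩ := hS.2 p (Subgroup.mem_top _)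
          exact ⟨⟨s, hs⟩, QuotientGroup.eq.2 hs'⟩
    rw [Subgroup.index, ← Nat.card_congr (Equiv.ofBijective _ hb), Nat.card_eq_fintype_card,
      Fintype.card_coe]
  rw [h1]
  have : Fact ℓ.Prime := ⟨hℓ⟩
  obtain ⟨k, hk⟩ := IsPGroup.iff_card.1 hp
  obtain ⟨m, -, hm⟩ := (Nat.dvd_prime_pow hℓ).1 (hk ▸ P'.index_dvd_card)
  rcases m with _ | m
  · rw [pow_zero, Subgroup.index_eq_one] at hm
    exact absurd hm hlt.ne
  · rw [hm, pow_succ]
    exact dvd_mul_left _ _

theorem twr : TwrStmt := by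
  intro ℓ r n hℓ R F V N H Hs _ _ _ _ _ _ _ _ _ _ _ _ c f e g ι α β lam xx t hκ hgq hβ hp hvℓ hBK hR
  obtain ⟨hpw, hcm⟩ := hR
  -- the matrices
  let mx : Matrix (Fin n) (Fin n) F →+* Matrix (Fin n) (Fin n) Hs :=
    ((algebraMap R Hs).comp (algebraMap F R)).mapMatrix
  let s : Hs →+* Matrix (Fin n) (Fin n) Hs := Matrix.scalar (Fin n)
  have hmx : ∀ m a b, mx m a b = algebraMap R Hs (algebraMap F R (m a b)) := fun m a b => rfl
  have hms : ∀ m w a b, (mx m * s w) a b = algebraMap R Hs (algebraMap F R (m a b)) * w := by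
    intro m w a b
    show (mx m * Matrix.diagonal (fun _ => w) : Matrix (Fin n) (Fin n) Hs) a b = _
    rw [Matrix.mul_diagonal, hmx]
  have hcomm : ∀ m w, Commute (mx m) (s w) := by
    intro m w
    ext a b
    rw [hms]
    show _ = (Matrix.diagonal (fun _ => w) * mx m : Matrix (Fin n) (Fin n) Hs) a b
    rw [Matrix.diagonal_mul, hmx, Algebra.commutes]
  have hsp : ∀ (ρ : R) (w : Hs), s (ρ • w) = ρ • s w := by
    intro ρ w
    show Matrix.diagonal (fun _ => ρ • w) = ρ • Matrix.diagonal (fun _ => w)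
    rw [← Matrix.diagonal_smul]
    rfl
  have hgm : ∀ m w, g.q (mx m * s w) = e.symm m ⊗ₜ[F] f.q w := by
    intro m w
    rw [hgq]
    have h1 : ∀ a b, e.symm (Matrix.single a b 1) ⊗ₜ[F] f.q ((mx m * s w) a b) =
        e.symm (Matrix.single a b (m a b)) ⊗ₜ[F] f.q w := by
      intro a b
      rw [hms, map_mul, f.sc, hκ, ← Algebra.smul_def, TensorProduct.tmul_smul,
        TensorProduct.smul_tmul', ← map_smul, Matrix.smul_single, smul_eq_mul, mul_one]
    simp only [h1]
    simp only [← TensorProduct.sum_tmul, ← map_sum]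
    rw [← Matrix.matrix_eq_sum_single]
  have hgv : ∀ v w, g.q (mx (e (ι v)) * s w) = ι v ⊗ₜ[F] f.q w := by
    intro v w
    rw [hgm, AlgEquiv.symm_apply_apply]
  have hgs : ∀ w, g.q (s w) = 1 ⊗ₜ[F] f.q w := by
    intro w
    have := hgv 1 w
    rwa [map_one, map_one, map_one, one_mul] at this
  have hX : ∀ u v, mx (e (ι u)) * mx (e (ι v)) = mx (e (ι (u * v))) := by
    intro u v
    rw [← map_mul, ← map_mul, ← map_mul]
  -- the commutators
  have hI1 : ∀ (z : V) (x : H), x ∈ IV F α → ι z ⊗ₜ[F] x ∈ IV F β := by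
    intro z x hx
    unfold IV at hx
    induction hx using Submodule.span_induction with
    | mem x hx =>
      obtain ⟨u, b, rfl⟩ := hx
      refine Submodule.subset_span ⟨u, ι (z * u⁻¹) ⊗ₜ[F] b, ?_⟩
      rw [hβ, Algebra.TensorProduct.tmul_mul_tmul, Algebra.TensorProduct.tmul_mul_tmul, ← map_mul,
        ← map_mul, inv_mul_cancel_right, mul_comm u, inv_mul_cancel_right, TensorProduct.tmul_sub]
    | zero => rw [TensorProduct.tmul_zero]; exact Submodule.zero_mem _
    | add x y _ _ hx hy => rw [TensorProduct.tmul_add]; exact Submodule.add_mem _ hx hy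
    | smul a x _ hx => rw [TensorProduct.tmul_smul]; exact Submodule.smul_mem _ a hx
  have hI2 : ∀ (u : V) (y : N), y ∈ BK (cj F ι) ⊤ → y ⊗ₜ[F] α u ∈ IV F β := by
    intro u y hy
    unfold BK at hy
    induction hy using Submodule.span_induction with
    | mem y hy =>
      obtain ⟨P', S, m, hlt, hS, -, rfl⟩ := hy
      have hcj : ∀ x, cj F ι x m = ι x * m * ι x⁻¹ := by
        intro x
        show bi F ι (x, x) m = _
        simp only [bi, MonoidHom.coe_mk, OneHom.coe_mk, LinearMap.comp_apply,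
          LinearMap.mulRight_apply, LinearMap.mulLeft_apply, mul_assoc]
      have h1 : ∀ x, (cj F ι x m) ⊗ₜ[F] α u - m ⊗ₜ[F] α u ∈ IV F β := by
        intro x
        refine Submodule.subset_span ⟨x, (m ⊗ₜ[F] α u) * β x⁻¹, ?_⟩
        rw [mul_assoc, ← map_mul, inv_mul_cancel, map_one, mul_one, hβ, hβ,
          Algebra.TensorProduct.tmul_mul_tmul, Algebra.TensorProduct.tmul_mul_tmul, ← map_mul,
          ← map_mul, mul_comm u, mul_inv_cancel_left, hcj, mul_assoc]
      have hF : (S.card : F) = 0 := by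
        rw [CharP.cast_eq_zero_iff F ℓ]
        exact twr_card hℓ.out hp hlt hS
      have h2 : ∑ x ∈ S, m ⊗ₜ[F] α u = (0 : N ⊗[F] H) := by
        rw [Finset.sum_const, ← Nat.cast_smul_eq_nsmul F, hF, zero_smul]
      rw [TensorProduct.sum_tmul, ← sub_zero (∑ x ∈ S, _), ← h2, ← Finset.sum_sub_distrib]
      exact Submodule.sum_mem _ fun x _ => h1 x
    | zero => rw [TensorProduct.zero_tmul]; exact Submodule.zero_mem _
    | add x y _ _ hx hy => rw [TensorProduct.add_tmul]; exact Submodule.add_mem _ hx hy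
    | smul a x _ hx => rw [← TensorProduct.smul_tmul']; exact Submodule.smul_mem _ a hx
  refine ⟨fun v => ?_, fun u v => ?_⟩
  · obtain ⟨w, G, h1, h2, h3⟩ := hpw v
    refine ⟨mx (e (ι v)) * s w, s G, ?_, ?_, ?_⟩
    · rw [hgv, h1, hβ]
    · rw [(hcomm _ _).mul_pow, ← map_pow, ← map_pow, ← map_pow, ← map_pow, hvℓ, map_one, map_one,
        map_one, one_mul, h2, map_add, map_one, hsp]
    · have e1 : g.q (s G) - ∑ u, gv lam xx t v u • β u =
          ι 1 ⊗ₜ[F] (f.q G - ∑ u, gv lam xx t v u • α u) -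
            ∑ u, gv lam xx t v u • ((ι u - 1) ⊗ₜ[F] α u) := by
        rw [hgs, map_one, TensorProduct.tmul_sub, TensorProduct.tmul_sum, sub_sub,
          ← Finset.sum_add_distrib]
        congr 1
        refine Finset.sum_congr rfl fun u _ => ?_
        rw [TensorProduct.tmul_smul, ← smul_add, TensorProduct.sub_tmul, add_sub_cancel, hβ]
      rw [e1]
      exact Submodule.sub_mem _ (hI1 1 _ h3)
        (Submodule.sum_mem _ fun u _ => Submodule.smul_mem _ _ (hI2 u _ (hBK u)))
  · obtain ⟨a, b, d, h1, h2, h3, h4⟩ := hcm u v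
    refine ⟨mx (e (ι u)) * s a, mx (e (ι v)) * s b, mx (e (ι (u * v))) * s d, ?_, ?_, ?_, ?_⟩
    · rw [hgv, h1, hβ]
    · rw [hgv, h2, hβ]
    · have e1 : mx (e (ι u)) * s a * (mx (e (ι v)) * s b) = mx (e (ι (u * v))) * s (a * b) := by
        rw [mul_assoc, ← mul_assoc (s a), ← (hcomm (e (ι v)) a).eq, mul_assoc, ← mul_assoc, hX,
          ← map_mul]
      have e2 : mx (e (ι v)) * s b * (mx (e (ι u)) * s a) = mx (e (ι (u * v))) * s (b * a) := by
        rw [mul_assoc, ← mul_assoc (s b), ← (hcomm (e (ι u)) b).eq, mul_assoc, ← mul_assoc, hX,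
          ← map_mul, mul_comm v u]
      rw [e1, e2, ← mul_sub, ← map_sub, h3, hsp, mul_smul_comm]
    · rw [hgv]
      exact hI1 (u * v) _ h4

end Pool.Agent.PST.ET.H41
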